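import Pool.Agent.MP_bd285a_nt.Gen

/-!
Simultaneous positive rank of the quadratic twist of `y^2 = f(x)`, the `m`-twist of
`y^2 = x^m + b` and the `2m`-twist of `y^2 = x^m + c` over `ℚ(u)`, for all `f`, `b`, `c` and every
odd `m > 3` that is not a power of a prime `p ≥ 5`.
-/

namespace Pool.Agent.Results.MP_bd285a_nt.MostM

open Polynomial Pool.Agent.MP_bd285a_nt

theorem result (f : ℚ[X]) (_hf : Squarefree f) (hdeg : 3 ≤ f.natDegree) (m : ℕ) (hm : Odd m)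
    (h3 : 3 < m) (hpp : ∀ p k : ℕ, p.Prime → 5 ≤ p → m ≠ p ^ k) (b c : ℚ) (_hb : b ≠ 0)
    (hc : c ≠ 0) :
    ∃ D : RatFunc ℚ, D ≠ 0 ∧
      PosRank (C D⁻¹ * f.map (algebraMap ℚ (RatFunc ℚ))) ∧
      PosRank (C D * X ^ m + C (algebraMap ℚ (RatFunc ℚ) b)) ∧
      PosRank (X ^ m + C (algebraMap ℚ (RatFunc ℚ) c * D)) := by
  obtain ⟨inst, hu⟩ := exists_deriv (RatFunc ℚ)
  exact most_posRank _ (algebraMap ℚ[X] (RatFunc ℚ) X) (by rw [hu]; exact one_ne_zero) f hdeg m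
    hm h3 hpp b c hc

end Pool.Agent.Results.MP_bd285a_nt.MostM
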