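import Pool.Agent.MP_bd285a_nt.Sec

/-!
Simultaneous positive rank of the quadratic twist of `y^2 = f(x)`, the `m`-twist of
`y^2 = x^m + b` and the `2m`-twist of `y^2 = x^m + c` over `ℚ(u)`, when `3 ∣ m` and the squarefree
part of `b` lies in an explicit list of 18 values; `f` and `c` are arbitrary.
-/

namespace Pool.Agent.Results.MP_bd285a_nt.ThreeDividesM

open Polynomial Pool.Agent.MP_bd285a_nt

theorem result (f : ℚ[X]) (_hf : Squarefree f) (hdeg : 3 ≤ f.natDegree) (m : ℕ) (hm : Odd m)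
    (h3 : 3 ∣ m) (b c : ℚ) (hc : c ≠ 0)
    (hb : ∃ d ∈ ({1, -1, 2, 3, -3, 5, -5, -6, 7, -7, 13, 15, -15, 21, -21, -39, 77, -231} : Set ℚ),
      ∃ s : ℚ, s ≠ 0 ∧ b = d * s ^ 2) :
    ∃ D : RatFunc ℚ, D ≠ 0 ∧
      PosRank (C D⁻¹ * f.map (algebraMap ℚ (RatFunc ℚ))) ∧
      PosRank (C D * X ^ m + C (algebraMap ℚ (RatFunc ℚ) b)) ∧
      PosRank (X ^ m + C (algebraMap ℚ (RatFunc ℚ) c * D)) := by
  obtain ⟨d, hd, s, hs, rfl⟩ := hb
  obtain ⟨n, rfl⟩ := h3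
  have hn : 0 < n := by
    obtain ⟨k, hk⟩ := hm
    omega
  obtain ⟨inst, hu⟩ := exists_deriv (RatFunc ℚ)
  exact three_posRank _ (algebraMap ℚ[X] (RatFunc ℚ) X) (by rw [hu]; exact one_ne_zero) f hdeg n
    hn d s c hd hs hc

end Pool.Agent.Results.MP_bd285a_nt.ThreeDividesM
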