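import Pool.Agent.MP_bd285a_nt.Two

/-!
Simultaneous positive rank of the quadratic twist of `y^2 = f(x)`, the `m`-twist of
`y^2 = x^m + b` and the `2m`-twist of `y^2 = x^m + c` over `ℚ(u)`, for every odd `m ≥ 3` and all
`b`, `c`, when `f = g(h(x))` with `g` of degree three or four having at most two irrational roots.
-/

namespace Pool.Agent.Results.MP_bd285a_nt.TwoTorsion

open Polynomial Pool.Agent.MP_bd285a_nt

theorem result (f g h : ℚ[X]) (hf : Squarefree f) (hfg : f = g.comp h) (hh : 0 < h.natDegree)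
    (hdeg : 3 ≤ g.natDegree) (h4 : g.natDegree ≤ 4) (hr : g.natDegree ≤ g.roots.card + 2)
    (m : ℕ) (hm : Odd m) (h3 : 3 ≤ m) (b c : ℚ) (hb : b ≠ 0) (hc : c ≠ 0) :
    ∃ D : RatFunc ℚ, D ≠ 0 ∧
      PosRank (C D⁻¹ * f.map (algebraMap ℚ (RatFunc ℚ))) ∧
      PosRank (C D * X ^ m + C (algebraMap ℚ (RatFunc ℚ) b)) ∧
      PosRank (X ^ m + C (algebraMap ℚ (RatFunc ℚ) c * D)) := by
  obtain ⟨inst, hu⟩ := exists_deriv (RatFunc ℚ)
  subst hfg
  have hg := squarefree_of_comp g h hh hf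
  exact two_posRank _ (algebraMap ℚ[X] (RatFunc ℚ) X) (by rw [hu]; exact one_ne_zero) g h hg hdeg
    hh m hm h3 b c hb hc ((roots_cases g hg hdeg h4 hr).imp_right Or.inl)

end Pool.Agent.Results.MP_bd285a_nt.TwoTorsion
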